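import Pool.Agent.Lib.MP_c5d73d_lc.F.IfaceW
import Pool.Agent.Lib.MP_100a6c_lc.H68.Ord

/-!
# CMP: comparability of cardinals in `V^B`

For a name `x` choose (in the well-ordered index type of `x`) the least indices; the collapse of
the set of these indices is an ordinal of `V^B`, hence a mixture of check ordinals.
-/

universe u

open scoped symmDiff
open Cardinal

namespace Pool.Agent.Lib.MP_c5d73d_lc.F.H68

open Pool.Agent.Lib.MP_100a6c_lc
open BName
open Pool.Agent.Lib.MP_100a6c_lc.H68 (co ord1)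

variable {B : Type u} [CompleteBooleanAlgebra B]

section

variable {ι : Type u} (r : ι → ι → Prop) [IsWellOrder ι r] (T : ι → B)

/-- the collapse -/
noncomputable def cl : ι → BName B :=
  (IsWellFounded.wf (r := r)).fix fun i rec =>
    mk {j // r j i} (fun j => rec j.1 j.2) fun j => T j.1

lemma cl_eq (i : ι) : cl r T i = mk {j // r j i} (fun j => cl r T j.1) fun j => T j.1 :=
  (IsWellFounded.wf (r := r)).fix_eq _ i

/-- the whole collapse -/
noncomputable def CL : BName B := mk ι (cl r T) T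

lemma mem_cl (z : BName B) (i : ι) :
    bmem z (cl r T i) = ⨆ j : {j // r j i}, T j.1 ⊓ beq z (cl r T j.1) := by
  rw [cl_eq, mem_mk]

lemma mem_CL (z : BName B) : bmem z (CL r T) = ⨆ j, T j ⊓ beq z (cl r T j) := by
  rw [CL, mem_mk]

lemma self_mem_cl {i j : ι} (h : r j i) : T j ≤ bmem (cl r T j) (cl r T i) := by
  rw [mem_cl]
  refine le_iSup_of_le ⟨j, h⟩ ?_
  rw [beq_refl, inf_top_eq]

lemma self_mem_CL (j : ι) : T j ≤ bmem (cl r T j) (CL r T) := by
  rw [mem_CL]
  refine le_iSup_of_le j ?_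
  rw [beq_refl, inf_top_eq]

lemma sub_cl {i j : ι} (h : r j i) : (VB B).sub (cl r T j) (cl r T i) = ⊤ := by
  rw [eq_top_iff]
  refine le_iInf fun z => ?_
  rw [le_himp_iff, top_inf_eq, VB_mem, VB_mem, mem_cl, mem_cl]
  exact iSup_le fun k => le_iSup_of_le ⟨k.1, _root_.trans k.2 h⟩ le_rfl

lemma sub_CL (j : ι) : (VB B).sub (cl r T j) (CL r T) = ⊤ := by
  rw [eq_top_iff]
  refine le_iInf fun z => ?_
  rw [le_himp_iff, top_inf_eq, VB_mem, VB_mem, mem_cl, mem_CL]
  exact iSup_le fun k => le_iSup_of_le k.1 le_rfl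

lemma isTrans_cl (i : ι) : (VB B).isTrans (cl r T i) = ⊤ := by
  rw [eq_top_iff]
  refine le_iInf fun z => ?_
  rw [le_himp_iff, top_inf_eq, VB_mem, mem_cl]
  refine iSup_le fun k => ?_
  refine (ext_sub_left (cl r T i)).of_le' (x := cl r T k.1) inf_le_right ?_
  rw [sub_cl r T k.2]; exact le_top

lemma isTrans_CL : (VB B).isTrans (CL r T) = ⊤ := by
  rw [eq_top_iff]
  refine le_iInf fun z => ?_
  rw [le_himp_iff, top_inf_eq, VB_mem, mem_CL]
  refine iSup_le fun k => ?_
  refine (ext_sub_left (CL r T)).of_le' (x := cl r T k) inf_le_right ?_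
  rw [sub_CL]; exact le_top

lemma isOrd_cl (i : ι) : (VB B).isOrd (cl r T i) = ⊤ := by
  rw [eq_top_iff]
  refine le_inf (isTrans_cl r T i).ge (le_iInf fun z => ?_)
  rw [le_himp_iff, top_inf_eq, VB_mem, mem_cl]
  refine iSup_le fun k => ?_
  refine ext_isTrans.of_le' (x := cl r T k.1) inf_le_right ?_
  rw [isTrans_cl]; exact le_top

lemma isOrd_CL : (VB B).isOrd (CL r T) = ⊤ := by
  rw [eq_top_iff]
  refine le_inf (isTrans_CL r T).ge (le_iInf fun z => ?_)
  rw [le_himp_iff, top_inf_eq, VB_mem, mem_CL]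
  refine iSup_le fun k => ?_
  refine ext_isTrans.of_le' (x := cl r T k) inf_le_right ?_
  rw [isTrans_cl]; exact le_top

lemma irrefl_of_isOrd (y : BName B) : (VB B).isOrd y ⊓ bmem y y = ⊥ := by
  rw [eq_bot_iff]
  refine (inf_le_inf_right _ (ord1 y)).trans ?_
  rw [iSup_inf_eq]
  refine iSup_le fun α => ?_
  have h1 : beq y (co α) ⊓ bmem y y ≤ bmem (co α) y := bmem_congr_left y (co α) y
  have h2 : beq y (co α) ⊓ bmem y y ≤ bmem (co α) (co α) :=
    (ext_mem_right (co α)).of_le inf_le_left h1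
  refine h2.trans ?_
  rw [co, mem_check_of_not_mem (ZFSet.mem_irrefl _)]

lemma beq_cl_lt {i j : ι} (h : r j i) : T j ⊓ beq (cl r T i) (cl r T j) ≤ ⊥ := by
  have h1 : T j ⊓ beq (cl r T i) (cl r T j) ≤ bmem (cl r T j) (cl r T j) :=
    (ext_mem_right (cl r T j)).of_le inf_le_right (inf_le_left.trans (self_mem_cl r T h))
  have h2 := irrefl_of_isOrd (cl r T j)
  rw [isOrd_cl, top_inf_eq] at h2
  exact h1.trans h2.le

lemma beq_cl_ne {i j : ι} (h : i ≠ j) : T i ⊓ T j ⊓ beq (cl r T i) (cl r T j) ≤ ⊥ := by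
  rcases trichotomous_of r i j with h1 | h1 | h1
  · refine le_trans ?_ (beq_cl_lt r T h1)
    refine le_inf (inf_le_left.trans inf_le_left) ?_
    rw [beq_symm (cl r T j)]; exact inf_le_right
  · exact absurd h1 h
  · exact le_trans (le_inf (inf_le_left.trans inf_le_right) inf_le_right) (beq_cl_lt r T h1)

end

/-- A bijection between families gives an inequality of cardinals. -/
lemma leCard_fam {ι : Type u} (x y : BName B) (f g : ι → BName B) (T : ι → B)
    (hdis : ∀ i j, i ≠ j → T i ⊓ T j ⊓ beq (f i) (f j) ≤ ⊥)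
    (hy : ∀ i, T i ≤ bmem (f i) y) (hx : ∀ z, bmem z x ≤ ⨆ i, T i ⊓ beq z (g i)) :
    (VB B).leCard x y = ⊤ := by
  rw [eq_top_iff]
  refine le_iSup_of_le (relFam f g T) (le_inf ?_ ?_)
  · refine le_iInf fun b => le_iInf fun a => le_iInf fun a' => ?_
    rw [le_himp_iff, top_inf_eq, rel_relFam, rel_relFam, iSup_inf_iSup]
    refine iSup_le fun ⟨i, j⟩ => ?_
    change T i ⊓ (beq b (f i) ⊓ beq a (g i)) ⊓ (T j ⊓ (beq b (f j) ⊓ beq a' (g j))) ≤ beq a a'
    by_cases hij : i = j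
    · subst hij
      exact (ext_eq_right a).of_le' (x := g i)
        (inf_le_right.trans (inf_le_right.trans inf_le_right))
        (inf_le_left.trans (inf_le_right.trans inf_le_right))
    · refine le_trans ?_ bot_le
      refine le_trans ?_ (hdis i j hij)
      refine le_inf (le_inf (inf_le_left.trans inf_le_left) (inf_le_right.trans inf_le_left)) ?_
      exact (ext_eq_left (f j)).of_le (x := b)
        (inf_le_left.trans (inf_le_right.trans inf_le_left))
        (inf_le_right.trans (inf_le_right.trans inf_le_left))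
  · refine le_iInf fun a => ?_
    rw [le_himp_iff, top_inf_eq]
    refine (hx a).trans (iSup_le fun i => ?_)
    refine le_iSup_of_le (f i) (le_inf (inf_le_left.trans (hy i)) ?_)
    rw [rel_relFam]
    refine le_iSup_of_le i ?_
    rw [beq_refl, top_inf_eq]

lemma leCard_mono_left (z x y : BName B) : (VB B).sub z x ⊓ (VB B).leCard x y ≤
    (VB B).leCard z y := by
  unfold Str.leCard
  rw [inf_iSup_eq]
  refine iSup_mono fun f => ?_
  refine le_inf (inf_le_right.trans inf_le_left) (le_iInf fun a => ?_)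
  rw [le_himp_iff]
  have h1 : (VB B).sub z x ⊓ ((⨅ b, ⨅ a, ⨅ a', (VB B).rel f b a ⊓ (VB B).rel f b a' ⇨
      (VB B).eq a a') ⊓ ⨅ a, (VB B).mem a x ⇨ ⨆ b, (VB B).mem b y ⊓ (VB B).rel f b a) ⊓
      (VB B).mem a z ≤ (VB B).mem a x :=
    sub_apply (inf_le_left.trans inf_le_left) a le_rfl inf_le_right
  exact iInf_himp_apply (Γ := (VB B).sub z x ⊓ ((⨅ b, ⨅ a, ⨅ a', (VB B).rel f b a ⊓
      (VB B).rel f b a' ⇨ (VB B).eq a a') ⊓ ⨅ a, (VB B).mem a x ⇨
        ⨆ b, (VB B).mem b y ⊓ (VB B).rel f b a)) (inf_le_right.trans inf_le_right) a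
    inf_le_left h1

lemma iSup_disj {K : Type u} (r : K → K → Prop) [IsWellFounded K r] (a : K → B) :
    ⨆ y, a y ≤ ⨆ y, a y ⊓ (⨆ y' : {y' // r y' y}, a y'.1)ᶜ := by
  refine iSup_le fun y => ?_
  induction y using (IsWellFounded.wf (r := r)).induction with
  | _ y ih =>
    have h1 : a y ≤ (a y ⊓ (⨆ y' : {y' // r y' y}, a y'.1)ᶜ) ⊔ ⨆ y' : {y' // r y' y}, a y'.1 := by
      rw [sup_inf_right, sup_comm (_ᶜ), sup_compl_eq_top, inf_top_eq]
      exact le_sup_left
    refine h1.trans (sup_le ?_ (iSup_le fun y' => ih y'.1 y'.2))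
    exact le_iSup (fun y => a y ⊓ (⨆ y' : {y' // r y' y}, a y'.1)ᶜ) y

theorem cmp : CmpStatement.{u} := by
  intro B _ κ x _
  let r : x.ix → x.ix → Prop := WellOrderingRel
  let T : x.ix → B := fun i => x.vl i ⊓
    (⨆ j : {j // r j i}, x.vl j.1 ⊓ beq (x.nm i) (x.nm j.1))ᶜ
  have hTvl : ∀ i, T i ≤ x.vl i := fun i => inf_le_left
  have hdis : ∀ i j, i ≠ j → T i ⊓ T j ⊓ beq (x.nm i) (x.nm j) ≤ ⊥ := by
    have key : ∀ i j, r j i → T i ⊓ T j ⊓ beq (x.nm i) (x.nm j) ≤ ⊥ := by
      intro i j h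
      have h1 : T i ⊓ T j ⊓ beq (x.nm i) (x.nm j) ≤
          ⨆ j : {j // r j i}, x.vl j.1 ⊓ beq (x.nm i) (x.nm j.1) :=
        le_iSup_of_le ⟨j, h⟩
          (le_inf ((inf_le_left.trans inf_le_right).trans (hTvl j)) inf_le_right)
      have h2 : T i ⊓ T j ⊓ beq (x.nm i) (x.nm j) ≤
          (⨆ j : {j // r j i}, x.vl j.1 ⊓ beq (x.nm i) (x.nm j.1))ᶜ :=
        (inf_le_left.trans inf_le_left).trans inf_le_right
      refine (le_inf h1 h2).trans ?_
      rw [inf_compl_eq_bot]
    intro i j hij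
    rcases trichotomous_of r i j with h1 | h1 | h1
    · refine le_trans ?_ (key j i h1)
      rw [inf_comm (T j), beq_symm (x.nm j)]
    · exact absurd h1 hij
    · exact key i j h1
  have hx : ∀ z, bmem z x ≤ ⨆ i, T i ⊓ beq z (x.nm i) := by
    intro z
    rw [bmem_def]
    refine (iSup_disj r fun i => x.vl i ⊓ beq z (x.nm i)).trans (iSup_mono fun i => ?_)
    refine le_inf (le_inf (inf_le_left.trans inf_le_left) ?_) (inf_le_left.trans inf_le_right)
    rw [le_compl_iff_disjoint_right, disjoint_iff, eq_bot_iff, inf_iSup_eq]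
    refine iSup_le fun j => ?_
    have h1 : x.vl i ⊓ beq z (x.nm i) ⊓ (⨆ y' : {y' // r y' i}, x.vl y'.1 ⊓
        beq z (x.nm y'.1))ᶜ ⊓ (x.vl j.1 ⊓ beq (x.nm i) (x.nm j.1)) ≤
        ⨆ y' : {y' // r y' i}, x.vl y'.1 ⊓ beq z (x.nm y'.1) := by
      refine le_iSup_of_le j (le_inf (inf_le_right.trans inf_le_left) ?_)
      exact (ext_eq_left (x.nm j.1)).of_le' (x := x.nm i)
        ((inf_le_left.trans inf_le_left).trans inf_le_right) (inf_le_right.trans inf_le_right)
    refine (le_inf h1 (inf_le_left.trans inf_le_right)).trans ?_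
    rw [inf_compl_eq_bot]
  have hL1 : (VB B).leCard x (CL r T) = ⊤ :=
    leCard_fam x (CL r T) (cl r T) x.nm T (fun i j h => beq_cl_ne r T h)
      (self_mem_CL r T) hx
  have hL2 : (VB B).leCard (CL r T) x = ⊤ :=
    leCard_fam (CL r T) x x.nm (cl r T) T hdis
      (fun i => (hTvl i).trans (vl_le_bmem x i)) (fun z => (mem_CL r T z).le)
  have hord := ord1 (CL r T)
  rw [isOrd_CL] at hord
  have h0 : ((VB B).leCard (check κ.ord.toZFSet) x)ᶜ ≤
      ⨆ α : Ordinal.{u}, ((VB B).leCard (check κ.ord.toZFSet) x)ᶜ ⊓ beq (CL r T) (co α) := by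
    rw [← inf_iSup_eq]
    exact le_inf le_rfl (le_top.trans hord)
  refine h0.trans (iSup_le fun α => ?_)
  rcases lt_or_ge α κ.ord with h | h
  · refine le_iSup_of_le α (le_iSup_of_le h ?_)
    refine (ext_leCard_right x).of_le (x := CL r T) inf_le_right ?_
    rw [hL1]; exact le_top
  · refine le_trans ?_ bot_le
    have h1 : ((VB B).leCard (check κ.ord.toZFSet) x)ᶜ ⊓ beq (CL r T) (co α) ≤
        (VB B).leCard (check κ.ord.toZFSet) x := by
      refine le_trans (le_inf ?_ ?_) (leCard_mono_left (check κ.ord.toZFSet) (co α) x)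
      · rw [co, sub_check_of_subset]
        · exact le_top
        · intro z hz
          obtain ⟨p, hp, rfl⟩ := Ordinal.mem_toZFSet_iff.1 hz
          exact Ordinal.mem_toZFSet_iff.2 ⟨p, hp.trans_le h, rfl⟩
      · refine (ext_leCard_left x).of_le (x := CL r T) inf_le_right ?_
        rw [hL2]; exact le_top
    refine (le_inf h1 inf_le_left).trans ?_
    rw [inf_compl_eq_bot]

end Pool.Agent.Lib.MP_c5d73d_lc.F.H68
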